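import Pool.Agent.H369.RE.Stm

/-!
# Expansion at a point as a ring homomorphism (EV)
-/

set_option autoImplicit false
set_option linter.unusedVariables false

namespace Pool.Agent.H115.RE

open Pool.Agent.TH549.CK Pool.Agent.H369.TH Pool.Agent.H369.CFG Pool.Agent.H369.SM
open Pool.Agent.H369.PL Pool.Agent.H369.RE

section
variable {Γ K : Type} [AddCommGroup Γ] [LinearOrder Γ] [IsOrderedAddMonoid Γ] [Field K]

theorem TL_mul (o : Pt Γ K) (f g : Ent Γ K) : TL o (f * g) = TL o f * TL o g := by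
  unfold TL
  rw [map_mul]
  exact map_mul (HahnSeries.ofPowerSeries ℤ (HG Γ K)) _ _

theorem TL_add (o : Pt Γ K) (f g : Ent Γ K) : TL o (f + g) = TL o f + TL o g := by
  unfold TL
  rw [map_add]
  exact map_add (HahnSeries.ofPowerSeries ℤ (HG Γ K)) _ _

theorem TL_one (o : Pt Γ K) : TL o (1 : Ent Γ K) = 1 := by
  unfold TL
  rw [map_one]
  exact map_one (HahnSeries.ofPowerSeries ℤ (HG Γ K))

theorem TL_zero (o : Pt Γ K) : TL o (0 : Ent Γ K) = 0 := by
  unfold TL
  rw [map_zero]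
  exact map_zero (HahnSeries.ofPowerSeries ℤ (HG Γ K))

theorem TL_pow (o : Pt Γ K) (f : Ent Γ K) (n : ℕ) : TL o (f ^ n) = TL o f ^ n := by
  induction n with
  | zero => rw [pow_zero, pow_zero, TL_one]
  | succ n ih => rw [pow_succ, pow_succ, TL_mul, ih]

theorem TL_cst (o : Pt Γ K) (c : HG Γ K) :
    TL o (cst c) = algebraMap (HG Γ K) (LaurentSeries (HG Γ K)) c := by
  unfold TL
  rw [T_cst]
  rfl

theorem TL_inj {o : Pt Γ K} (h : Function.Injective (T o)) {f g : Ent Γ K}
    (hfg : TL o f = TL o g) : f = g :=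
  h (HahnSeries.ofPowerSeries_injective (Γ := ℤ) (R := HG Γ K) hfg)

/-- `h θ^n = f` -/
def Rl (P : Γ) (o : Pt Γ K) (h : LaurentSeries (HG Γ K)) (n : ℕ) (f : Ent Γ K) : Prop :=
  h * TL o (theta P o) ^ n = TL o f

theorem cross {P : Γ} {o : Pt Γ K} (hi : Function.Injective (T o)) {h : LaurentSeries (HG Γ K)}
    {n n' : ℕ} {f f' : Ent Γ K} (h1 : Rl P o h n f) (h2 : Rl P o h n' f') :
    f * theta P o ^ n' = f' * theta P o ^ n := by
  apply TL_inj hi
  unfold Rl at h1 h2
  rw [TL_mul, TL_mul, TL_pow, TL_pow, ← h1, ← h2]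
  ring

theorem main {P : Γ} {o a : Pt Γ K} (hi : Function.Injective (T o))
    (hu : IsUnit (T a (theta P o))) (hex : ∀ h ∈ R1 P o, ∃ n f, Fr P o n f h) :
    ∃ e : R1 P o →+* PowerSeries (HG Γ K), (∀ c, e (algebraMap _ (R1 P o) c) = PowerSeries.C c) ∧
    ∀ (n : ℕ) (f : Ent Γ K) (h : R1 P o), FR P o n f h → e h * T a (theta P o) ^ n = T a f := by
  obtain ⟨u, hu⟩ := hu
  have hR : ∀ h : R1 P o, ∃ n f, Rl P o (h : LaurentSeries (HG Γ K)) n f := fun h => by
    obtain ⟨n, f, hf⟩ := hex h h.2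
    exact ⟨n, f, hf.2⟩
  choose N F hNF using hR
  -- the value
  obtain ⟨v, hv⟩ : ∃ v : R1 P o → PowerSeries (HG Γ K),
      v = fun h => T a (F h) * ((u⁻¹ : (PowerSeries (HG Γ K))ˣ) : PowerSeries (HG Γ K)) ^ N h :=
    ⟨_, rfl⟩
  have key : ∀ (h : R1 P o) (n : ℕ) (f : Ent Γ K), Rl P o (h : LaurentSeries (HG Γ K)) n f →
      v h * (u : PowerSeries (HG Γ K)) ^ n = T a f := by
    intro h n f hf
    have h1 := congrArg (T a) (cross hi (hNF h) hf)
    rw [map_mul, map_mul, map_pow, map_pow, ← hu] at h1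
    rw [hv]
    calc T a (F h) * ((u⁻¹ : (PowerSeries (HG Γ K))ˣ) : PowerSeries (HG Γ K)) ^ N h *
          (u : PowerSeries (HG Γ K)) ^ n
        = (T a (F h) * (u : PowerSeries (HG Γ K)) ^ n) *
          ((u⁻¹ : (PowerSeries (HG Γ K))ˣ) : PowerSeries (HG Γ K)) ^ N h := by ring
      _ = T a f * ((u : PowerSeries (HG Γ K)) *
          ((u⁻¹ : (PowerSeries (HG Γ K))ˣ) : PowerSeries (HG Γ K))) ^ N h := by
          rw [h1, mul_pow, mul_assoc]
      _ = T a f := by rw [Units.mul_inv, one_pow, mul_one]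
  have canc : ∀ (n : ℕ) (x y : PowerSeries (HG Γ K)),
      x * (u : PowerSeries (HG Γ K)) ^ n = y * (u : PowerSeries (HG Γ K)) ^ n → x = y := by
    intro n x y h
    have h2 : IsUnit ((u : PowerSeries (HG Γ K)) ^ n) := u.isUnit.pow n
    exact h2.mul_right_cancel h
  have hv1 : v 1 = 1 := by
    have := key 1 0 1 (by
      unfold Rl
      rw [pow_zero, mul_one, TL_one]
      rfl)
    rw [pow_zero, mul_one, map_one] at this
    exact this
  have hv0 : v 0 = 0 := by
    have := key 0 0 0 (by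
      unfold Rl
      rw [pow_zero, mul_one, TL_zero]
      rfl)
    rw [pow_zero, mul_one, map_zero] at this
    exact this
  have hvm : ∀ x y, v (x * y) = v x * v y := by
    intro x y
    have h1 := key (x * y) (N x + N y) (F x * F y) (by
      have a1 := hNF x
      have a2 := hNF y
      unfold Rl at a1 a2 ⊢
      rw [TL_mul, ← a1, ← a2]
      have e : ((x * y : R1 P o) : LaurentSeries (HG Γ K)) =
        (x : LaurentSeries (HG Γ K)) * (y : LaurentSeries (HG Γ K)) := rfl
      rw [e]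
      ring)
    apply canc (N x + N y)
    rw [h1, map_mul, ← key x _ _ (hNF x), ← key y _ _ (hNF y)]
    ring
  have hva : ∀ x y, v (x + y) = v x + v y := by
    intro x y
    have h1 := key (x + y) (N x + N y)
      (F x * theta P o ^ N y + F y * theta P o ^ N x) (by
      have a1 := hNF x
      have a2 := hNF y
      unfold Rl at a1 a2 ⊢
      rw [TL_add, TL_mul, TL_mul, TL_pow, TL_pow, ← a1, ← a2]
      have e : ((x + y : R1 P o) : LaurentSeries (HG Γ K)) =
        (x : LaurentSeries (HG Γ K)) + (y : LaurentSeries (HG Γ K)) := rfl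
      rw [e]
      ring)
    apply canc (N x + N y)
    rw [h1, map_add, map_mul, map_mul, map_pow, map_pow, ← hu, ← key x _ _ (hNF x),
      ← key y _ _ (hNF y)]
    ring
  refine ⟨{ toFun := v, map_one' := hv1, map_zero' := hv0, map_mul' := hvm, map_add' := hva },
    fun c => ?_, fun n f h hf => ?_⟩
  · have := key (algebraMap _ (R1 P o) c) 0 (cst c) (by
      unfold Rl
      rw [pow_zero, mul_one, TL_cst]
      rfl)
    rw [pow_zero, mul_one, T_cst] at this
    exact this
  · rw [← hu]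
    exact key h n f hf.2

end

theorem ev (h1 : S_rules) (h2 : S_T) (h3 : S_Th) (h4 : S_theta) (h6 : S_fr) : S_ev := by
  intro Γ K _ _ _ _ _ P hP o a ha
  refine main ((h2 Γ K).1 o) ?_ (h6 Γ K P hP o).1
  rw [PowerSeries.isUnit_iff_constantCoeff]
  have h5 := (h4 Γ K P hP o).2.2.2.2 a ha
  rw [PowerSeries.coeff_zero_eq_constantCoeff_apply] at h5
  exact isUnit_iff_ne_zero.2 h5

end Pool.Agent.H115.RE
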